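import Pool.Agent.H73.GWQ.Stmts2

/-! Project GWQ, row N9Q (powers). -/

set_option autoImplicit false

open Classical

namespace GWQ

variable {G V : Type*} [Group G] (D : QM G V)

theorem N9Q (h3 : N3QStmt D) : N9QStmt D := by
  intro h N hN hreg hwpd hidx
  refine ⟨?_, ?_⟩
  · intro R
    obtain ⟨n, hn⟩ := hwpd (R + 2 * (∑ r ∈ Finset.range N, D.nm (h ^ r)) + BB D (h ^ N) + 4 * D.δ)
    refine ⟨n, hn.subset ?_⟩
    intro x hx
    obtain ⟨hx1, hx2⟩ := hx
    have hmod : n % N < N := Nat.mod_lt _ hN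
    have hdiv : n / N ≤ n := Nat.div_le_self _ _
    have hdec : h ^ n = (h ^ N) ^ (n / N) * h ^ (n % N) := by
      rw [← pow_mul, ← pow_add, Nat.div_add_mod]
    have hc : D.nm (h ^ (n % N)) ≤ ∑ r ∈ Finset.range N, D.nm (h ^ r) :=
      Finset.single_le_sum (f := fun r => D.nm (h ^ r)) (fun r _ => Nat.zero_le _)
        (Finset.mem_range.mpr hmod)
    have key := h3 (h ^ N) hreg x 0 0 1 n (n / N) R (Or.inl rfl) hdiv
      (by
        rw [zpow_zero, mul_one]
        exact hx1)
      (by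
        simp only [zero_add, one_mul, zpow_natCast]
        exact hx2)
    simp only [zero_add, one_mul, zpow_natCast] at key
    refine ⟨?_, ?_⟩
    · exact le_trans hx1 (by omega)
    · have t1 := D.tri (h ^ n) ((h ^ N) ^ (n / N)) (x * h ^ n)
      have t2 := D.tri ((h ^ N) ^ (n / N)) (x * (h ^ N) ^ (n / N)) (x * h ^ n)
      have e1 : D.d (h ^ n) ((h ^ N) ^ (n / N)) = D.nm (h ^ (n % N)) := by
        rw [D.comm]
        have := D.inv ((h ^ N) ^ (n / N)) 1 (h ^ (n % N))
        rw [mul_one, ← hdec] at this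
        exact this
      have e2 : D.d (x * (h ^ N) ^ (n / N)) (x * h ^ n) = D.nm (h ^ (n % N)) := by
        rw [D.inv, D.comm, e1]
      rw [e1] at t1
      rw [e2] at t2
      show D.d (h ^ n) (x * h ^ n) ≤ _
      omega
  · have hle : Subgroup.zpowers (h ^ N) ≤ Subgroup.zpowers h := by
      rw [Subgroup.zpowers_le]
      exact Subgroup.npow_mem_zpowers h N
    have hd := Subgroup.index_dvd_of_le hle
    rw [hidx] at hd
    exact zero_dvd_iff.1 hd

end GWQ
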